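import Pool.Agent.H39.VQ.Targets

set_option autoImplicit false

open Finset

namespace Pool.Agent.H91.VQ

open Pool.Agent.H11.CV Pool.Agent.H39.VQ

theorem cnt_nonneg' {G : Type} [Fintype G] (S : Set G) : 0 ≤ cnt S := by
  unfold cnt
  positivity

open Classical in
theorem exists_of_cnt_ne {G : Type} [Fintype G] (S : Set G) (h : cnt S ≠ 0) : ∃ g, g ∈ S := by
  by_contra hne
  push Not at hne
  apply h
  unfold cnt
  rw [Finset.filter_false_of_mem (fun g _ => hne g)]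
  simp

/-- the abstract induction -/
theorem abs_iter (lam Z μ : ℕ → ℝ) (K : ℝ) (M : ℕ) (hK0 : 0 < K) (hlam : ∀ m, 0 < lam m)
    (hμ0 : ∀ m, 0 < μ m) (hZ0 : ∀ m, 0 ≤ Z m) (hmass : ∀ m, m ≤ M → μ M ≤ 2 * μ m)
    (hstep : ∀ m, 1 ≤ m → m + 1 ≤ M →
      lam (m + 1) ^ 4 * Z (m + 1) ≤ K * (μ (m - 2) / μ m) ^ 2 * (lam m ^ 4 * Z m))
    (hstep0 : 1 ≤ M → lam 1 ^ 4 * Z 1 ≤ K * (lam 0 ^ 4 * Z 0)) :
    lam M ^ 4 * Z M ≤ K ^ M * (16 * μ 0 ^ 4 / μ M ^ 4) * (lam 0 ^ 4 * Z 0) := by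
  have hind : ∀ m, m ≤ M → lam m ^ 4 * Z m ≤
      K ^ m * (μ 0 ^ 4 / (μ (m - 1) ^ 2 * μ (m - 2) ^ 2)) * (lam 0 ^ 4 * Z 0) := by
    intro m
    induction m with
    | zero =>
      intro _
      have hm0 := (hμ0 0).ne'
      have e : μ 0 ^ 4 / (μ (0 - 1) ^ 2 * μ (0 - 2) ^ 2) = 1 := by
        simp only [Nat.zero_sub]
        field_simp
      rw [e]
      simp
    | succ m ih =>
      intro hm
      rcases Nat.eq_zero_or_pos m with h0 | h0
      · subst h0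
        have hm0 := (hμ0 0).ne'
        have e : μ 0 ^ 4 / (μ (0 + 1 - 1) ^ 2 * μ (0 + 1 - 2) ^ 2) = 1 := by
          rw [show 0 + 1 - 1 = 0 from rfl]
          field_simp
        rw [e]
        have := hstep0 (by omega)
        simpa using this
      · refine (hstep m h0 hm).trans ?_
        have h3 := ih (by omega)
        calc K * (μ (m - 2) / μ m) ^ 2 * (lam m ^ 4 * Z m)
            ≤ K * (μ (m - 2) / μ m) ^ 2 * (K ^ m * (μ 0 ^ 4 / (μ (m - 1) ^ 2 * μ (m - 2) ^ 2)) *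
              (lam 0 ^ 4 * Z 0)) := by gcongr
          _ = K ^ (m + 1) * (μ 0 ^ 4 / (μ (m + 1 - 1) ^ 2 * μ (m + 1 - 2) ^ 2)) *
              (lam 0 ^ 4 * Z 0) := by
              have q1 := (hμ0 (m - 1)).ne'
              have q2 := (hμ0 (m - 2)).ne'
              have q3 := (hμ0 m).ne'
              rw [show m + 1 - 1 = m by omega, show m + 1 - 2 = m - 1 by omega, pow_succ K]
              field_simp
  have hf := hind M le_rfl
  refine hf.trans ?_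
  have hR : μ 0 ^ 4 / (μ (M - 1) ^ 2 * μ (M - 2) ^ 2) ≤ 16 * μ 0 ^ 4 / μ M ^ 4 := by
    have a1 := hmass (M - 1) (by omega)
    have a2 := hmass (M - 2) (by omega)
    have b0 := hμ0 M
    have b1 := hμ0 (M - 1)
    have b2 := hμ0 (M - 2)
    have c1 : μ M ^ 2 ≤ (2 * μ (M - 1)) ^ 2 := pow_le_pow_left₀ b0.le a1 2
    have c2 : μ M ^ 2 ≤ (2 * μ (M - 2)) ^ 2 := pow_le_pow_left₀ b0.le a2 2
    have c3 : μ M ^ 4 ≤ 16 * (μ (M - 1) ^ 2 * μ (M - 2) ^ 2) := by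
      calc μ M ^ 4 = μ M ^ 2 * μ M ^ 2 := by ring
        _ ≤ (2 * μ (M - 1)) ^ 2 * (2 * μ (M - 2)) ^ 2 := by gcongr
        _ = 16 * (μ (M - 1) ^ 2 * μ (M - 2) ^ 2) := by ring
    rw [div_le_div_iff₀ (by positivity) (by positivity)]
    have b4 : 0 ≤ μ 0 ^ 4 := pow_nonneg (hμ0 0).le 4
    calc μ 0 ^ 4 * μ M ^ 4 ≤ μ 0 ^ 4 * (16 * (μ (M - 1) ^ 2 * μ (M - 2) ^ 2)) :=
          mul_le_mul_of_nonneg_left c3 b4
      _ = 16 * μ 0 ^ 4 * (μ (M - 1) ^ 2 * μ (M - 2) ^ 2) := by ring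
  have h4 : 0 ≤ lam 0 ^ 4 * Z 0 := mul_nonneg (pow_nonneg (hlam 0).le 4) (hZ0 0)
  exact mul_le_mul_of_nonneg_right (mul_le_mul_of_nonneg_left hR (pow_nonneg hK0.le M)) h4

theorem fin_eq (a b z q K : ℝ) (ha : 0 < a) :
    a ^ 4 * (K * (16 * (q * b) ^ 4 / a ^ 4) * (b ^ 4 * z)) = 16 * K * q ^ 4 * b ^ 8 * z := by
  field_simp

theorem kmul {a b c x y : ℝ} (h : a * b ≤ c) (hx : 0 ≤ x) (hy : 0 ≤ y) (z : ℝ) (hz : 0 ≤ z) :
    a * b * x * y * z ≤ c * x * y * z := by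
  exact mul_le_mul_of_nonneg_right (mul_le_mul_of_nonneg_right
    (mul_le_mul_of_nonneg_right h hx) hy) hz

theorem pf_IT (hST : V_ST) (hS0 : V_S0) (hTY : V_TY) (hLV : V_LV) (hRS : T_RS) : V_IT := by
  intro p L k ε G _ _ u0 u1 u2 w δ lam M θ hS hlam hθ hθ1 hM
  have hp1 : 1 < p := hS.prime.one_lt
  have hp0 : (0 : ℝ) < p := by
    have : 0 < p := by omega
    exact_mod_cast this
  have hpR : (1 : ℝ) ≤ p := by exact_mod_cast hp1.le
  obtain ⟨l0, lmon, lle, l1, l2, -⟩ := hLV k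
  obtain ⟨ty1, ty2, ty3⟩ := hTY p L k ε G u0 u1 u2 w δ lam hS hlam
  set μ : ℕ → ℝ := fun m => (p : ℝ) ^ (lv k m) * lam m with hμ
  have hμ0 : ∀ m, 0 < μ m := fun m => mul_pos (pow_pos hp0 _) (hlam m)
  set Z : ℕ → ℝ := fun m => ∑ ξ ∈ range (p ^ (lv k m)), cnt (Oh p k lam w δ m ξ (θ / 2 ^ (M - m)))
    with hZ
  have hZ0 : ∀ m, 0 ≤ Z m := fun m => Finset.sum_nonneg (fun _ _ => cnt_nonneg' _)
  set K : ℝ := (2 ^ M / θ) ^ 4 * (64 * ((k : ℝ) + 1) ^ 2 * (p : ℝ) ^ 3) with hK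
  have hK0 : 0 < K := by positivity
  have hZM : Z M = cnt (Oh p k lam w δ M 0 θ) := by
    simp only [hZ, hM, pow_zero, Finset.sum_range_one, Nat.sub_self, div_one]
  have hZz : Z 0 = ∑ ξ ∈ range (p ^ k), cnt (Oh p k lam w δ 0 ξ (θ / 2 ^ M)) := by
    simp only [hZ, l0, Nat.sub_zero]
  rw [← hZM, ← hZz]
  by_cases hne : Z M = 0
  · rw [hne, mul_zero]
    exact mul_nonneg (mul_nonneg (mul_nonneg (mul_nonneg (by norm_num) (pow_nonneg hK0.le M))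
      (pow_nonneg hp0.le _)) (pow_nonneg (hlam 0).le 8)) (hZ0 0)
  -- masses
  have hmass : ∀ m, m ≤ M → μ M ≤ 2 * μ m := by
    intro m hm
    rw [hZM] at hne
    obtain ⟨g, hg⟩ := exists_of_cnt_ne _ hne
    have hM0 : (0 : ℕ) < p ^ (lv k M) := by positivity
    have h1 : lam M ≤ cn p k lam w M 0 g := ((ty1 M 0 hM0).1 g).2.2.2 hg.1
    have h2 := ty3 m M 0 hm hM0 g
    have h3 : ∑ z ∈ range (p ^ (lv k m - lv k M)), cn p k lam w m (0 + p ^ (lv k M) * z) g ≤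
        ∑ z ∈ range (p ^ (lv k m - lv k M)), 2 * lam m := by
      apply Finset.sum_le_sum
      intro z hz
      have hz' : 0 + p ^ (lv k M) * z < p ^ (lv k m) := by
        rw [hM, pow_zero, one_mul, zero_add]
        rw [hM, Nat.sub_zero] at hz
        exact Finset.mem_range.1 hz
      exact (((ty1 m _ hz').1 g).2.2.1).le
    rw [Finset.sum_const, Finset.card_range, nsmul_eq_mul, hM, Nat.sub_zero] at h3
    rw [hM, Nat.sub_zero] at h2
    have e1 : μ M = lam M := by simp only [hμ, hM, pow_zero, one_mul]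
    rw [e1]
    refine h1.trans (h2.trans (h3.trans (le_of_eq ?_)))
    simp only [hμ]
    push_cast
    ring
  -- regrouping
  have hreg : ∀ m, (∑ ξ ∈ range (p ^ (lv k (m + 1))), ∑ z ∈ range (p ^ (lv k m - lv k (m + 1))),
      cnt (Oh p k lam w δ m (ξ + p ^ (lv k (m + 1)) * z) (θ / 2 ^ (M - m)))) = Z m := by
    intro m
    have h := (hRS p (lv k (m + 1)) (lv k m - lv k (m + 1)) hp1).1 ℝ
      (fun x => cnt (Oh p k lam w δ m x (θ / 2 ^ (M - m))))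
    have hle : lv k (m + 1) ≤ lv k m := lmon m (m + 1) (by omega)
    rw [show lv k (m + 1) + (lv k m - lv k (m + 1)) = lv k m by omega] at h
    exact h.symm
  have hhalf : ∀ m, m + 1 ≤ M → θ / 2 ^ (M - (m + 1)) / 2 = θ / 2 ^ (M - m) := by
    intro m hm
    rw [show M - m = M - (m + 1) + 1 by omega, pow_succ]
    field_simp
  have hθm : ∀ m, 0 < θ / 2 ^ (M - m) := fun m => by positivity
  have hK2 : ∀ m, m + 1 ≤ M → (2 / (θ / 2 ^ (M - (m + 1)))) ^ 4 ≤ (2 ^ M / θ) ^ 4 := by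
    intro m hm
    apply pow_le_pow_left₀ (by have := hθm (m + 1); positivity)
    have e : 2 / (θ / 2 ^ (M - (m + 1))) = 2 ^ (M - (m + 1) + 1) / θ := by
      rw [pow_succ]
      field_simp
    rw [e]
    gcongr
    · norm_num
    · omega
  have hp3 : (1 : ℝ) ≤ (p : ℝ) ^ 3 := one_le_pow₀ hpR
  have hk1 : (1 : ℝ) ≤ ((k : ℝ) + 1) ^ 2 := by
    apply one_le_pow₀
    have : (0 : ℝ) ≤ k := Nat.cast_nonneg k
    linarith
  -- steps
  have hstep : ∀ m, 1 ≤ m → m + 1 ≤ M →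
      lam (m + 1) ^ 4 * Z (m + 1) ≤ K * (μ (m - 2) / μ m) ^ 2 * (lam m ^ 4 * Z m) := by
    intro m hm1 hm
    have h1 : ∀ ξ ∈ range (p ^ (lv k (m + 1))),
        lam (m + 1) ^ 4 * cnt (Oh p k lam w δ (m + 1) ξ (θ / 2 ^ (M - (m + 1)))) ≤
        K * (μ (m - 2) / μ m) ^ 2 * lam m ^ 4 *
          ∑ z ∈ range (p ^ (lv k m - lv k (m + 1))),
            cnt (Oh p k lam w δ m (ξ + p ^ (lv k (m + 1)) * z) (θ / 2 ^ (M - m))) := by
      intro ξ hξ
      have h := hST p L k ε G u0 u1 u2 w δ lam m ξ (θ / 2 ^ (M - (m + 1))) hS hlam hm1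
        (hθm (m + 1)) (Finset.mem_range.1 hξ)
      rw [hhalf m hm] at h
      have e : (p : ℝ) ^ (lv k (m - 2) - lv k m) * lam (m - 2) / lam m = μ (m - 2) / μ m := by
        have hle : lv k m ≤ lv k (m - 2) := lmon (m - 2) m (by omega)
        simp only [hμ]
        have e2 : (p : ℝ) ^ (lv k (m - 2)) = (p : ℝ) ^ (lv k (m - 2) - lv k m) * (p : ℝ) ^ (lv k m) := by
          rw [← pow_add]
          congr 1
          omega
        rw [e2]
        have q1 : lam m ≠ 0 := (hlam m).ne'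
        have q2 : (p : ℝ) ^ (lv k m) ≠ 0 := by positivity
        field_simp
      rw [e] at h
      refine h.trans ?_
      have hs : 0 ≤ ∑ z ∈ range (p ^ (lv k m - lv k (m + 1))),
            cnt (Oh p k lam w δ m (ξ + p ^ (lv k (m + 1)) * z) (θ / 2 ^ (M - m))) :=
        Finset.sum_nonneg (fun _ _ => cnt_nonneg' _)
      have hKm : (2 / (θ / 2 ^ (M - (m + 1)))) ^ 4 * (64 * ((k : ℝ) + 1) ^ 2) ≤ K := by
        rw [hK]
        have : (64 * ((k : ℝ) + 1) ^ 2) ≤ 64 * ((k : ℝ) + 1) ^ 2 * (p : ℝ) ^ 3 :=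
          le_mul_of_one_le_right (by positivity) hp3
        exact mul_le_mul (hK2 m hm) this (by positivity) (by positivity)
      have hl4 : 0 ≤ lam m ^ 4 := pow_nonneg (hlam m).le 4
      exact kmul hKm (sq_nonneg _) hl4 _ hs
    have h2 := Finset.sum_le_sum h1
    rw [← Finset.mul_sum, ← Finset.mul_sum, hreg m] at h2
    calc lam (m + 1) ^ 4 * Z (m + 1) ≤ K * (μ (m - 2) / μ m) ^ 2 * lam m ^ 4 * Z m := h2
      _ = K * (μ (m - 2) / μ m) ^ 2 * (lam m ^ 4 * Z m) := by ring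
  have hstep0 : 1 ≤ M → lam 1 ^ 4 * Z 1 ≤ K * (lam 0 ^ 4 * Z 0) := by
    intro hm
    have h1 : ∀ ξ ∈ range (p ^ (lv k (0 + 1))),
        lam 1 ^ 4 * cnt (Oh p k lam w δ 1 ξ (θ / 2 ^ (M - (0 + 1)))) ≤
        K * lam 0 ^ 4 *
          ∑ z ∈ range (p ^ (lv k 0 - lv k (0 + 1))),
            cnt (Oh p k lam w δ 0 (ξ + p ^ (lv k (0 + 1)) * z) (θ / 2 ^ (M - 0))) := by
      intro ξ hξ
      have h := hS0 p L k ε G u0 u1 u2 w δ lam ξ (θ / 2 ^ (M - (0 + 1))) hS hlam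
        (hθm (0 + 1)) (Finset.mem_range.1 hξ)
      rw [hhalf 0 hm] at h
      refine h.trans ?_
      have hs : 0 ≤ ∑ z ∈ range (p ^ (lv k 0 - lv k (0 + 1))),
            cnt (Oh p k lam w δ 0 (ξ + p ^ (lv k (0 + 1)) * z) (θ / 2 ^ (M - 0))) :=
        Finset.sum_nonneg (fun _ _ => cnt_nonneg' _)
      have hKm : (2 / (θ / 2 ^ (M - (0 + 1)))) ^ 4 * (16 * (p : ℝ) ^ 3) ≤ K := by
        rw [hK]
        have : 16 * (p : ℝ) ^ 3 ≤ 64 * ((k : ℝ) + 1) ^ 2 * (p : ℝ) ^ 3 :=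
          mul_le_mul_of_nonneg_right (by linarith) (by positivity)
        exact mul_le_mul (hK2 0 hm) this (by positivity) (by positivity)
      have hl4 : 0 ≤ lam 0 ^ 4 := pow_nonneg (hlam 0).le 4
      exact mul_le_mul_of_nonneg_right (mul_le_mul_of_nonneg_right hKm hl4) hs
    have h2 := Finset.sum_le_sum h1
    rw [← Finset.mul_sum, ← Finset.mul_sum, hreg 0] at h2
    calc lam 1 ^ 4 * Z 1 ≤ K * lam 0 ^ 4 * Z 0 := h2
      _ = K * (lam 0 ^ 4 * Z 0) := by ring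
  -- conclusion
  have hf := abs_iter lam Z μ K M hK0 hlam hμ0 hZ0 hmass hstep hstep0
  have eM : μ M = lam M := by simp only [hμ, hM, pow_zero, one_mul]
  have e0 : μ 0 = (p : ℝ) ^ k * lam 0 := by simp only [hμ, l0]
  have hlM := hlam M
  have hl0 := hlam 0
  have hZ00 := hZ0 0
  calc lam M ^ 8 * Z M = lam M ^ 4 * (lam M ^ 4 * Z M) := by ring
    _ ≤ lam M ^ 4 * (K ^ M * (16 * μ 0 ^ 4 / μ M ^ 4) * (lam 0 ^ 4 * Z 0)) :=
        mul_le_mul_of_nonneg_left hf (pow_nonneg hlM.le 4)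
    _ = 16 * K ^ M * (p : ℝ) ^ (4 * k) * lam 0 ^ 8 * Z 0 := by
        have e4 : (p : ℝ) ^ (4 * k) = ((p : ℝ) ^ k) ^ 4 := by
          rw [← pow_mul, mul_comm]
        rw [eM, e0, e4]
        exact fin_eq (lam M) (lam 0) (Z 0) ((p : ℝ) ^ k) (K ^ M) hlM

end Pool.Agent.H91.VQ
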