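import Pool.Agent.H39.VQ.Targets

set_option autoImplicit false

open Finset

namespace Pool.Agent.H91.VQ

open Pool.Agent.H11.CV Pool.Agent.H39.VQ

/-- the periods of a function -/
def per {G : Type} [AddCommGroup G] {E : Type} (h : G → E) : AddSubgroup G where
  carrier := {a | ∀ g, h (g + a) = h g}
  zero_mem' := by
    intro g
    rw [add_zero]
  add_mem' := by
    intro a b ha hb g
    rw [← add_assoc, hb, ha]
  neg_mem' := by
    intro a ha g
    have := ha (g + -a)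
    rw [neg_add_cancel_right] at this
    exact this.symm

theorem mem_per {G : Type} [AddCommGroup G] {E : Type} (h : G → E) (a : G) :
    a ∈ per h ↔ ∀ g, h (g + a) = h g := Iff.rfl

theorem ee_pow_self (p : ℕ) (hp : 1 < p) (ε : ℤ) : ee p ε ^ p = 1 := by
  unfold ee
  rw [← Complex.exp_nat_mul]
  have hp0 : (p : ℂ) ≠ 0 := by
    have : p ≠ 0 := by omega
    exact_mod_cast this
  have e : (p : ℂ) * (2 * Real.pi * Complex.I * ((ε : ℂ) / (p : ℂ))) =
      (ε : ℂ) * (2 * Real.pi * Complex.I) := by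
    field_simp
  rw [e]
  exact Complex.exp_int_mul_two_pi_mul_I ε

theorem iter_phase {G : Type} [AddCommGroup G] (h : G → ℂ) (a : G) (c : ℂ)
    (ha : ∀ g, h (g + a) = c * h g) (n : ℕ) : ∀ g, h (g + n • a) = c ^ n * h g := by
  induction n with
  | zero =>
    intro g
    simp
  | succ n ih =>
    intro g
    rw [succ_nsmul, ← add_assoc, ha, ih, pow_succ]
    ring

/-- change of the class -/
theorem change {G : Type} [AddCommGroup G] {E : Type} (h : G → E) (p L k k' : ℕ) (s s' : ℤ)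
    (u0 u1 u2 : G) (hL : 2 * k ≤ L) (hk : k' ≤ k) (hs : (p : ℤ) ^ k' ∣ s' - s)
    (h0 : p ^ L • u0 ∈ per h)
    (h1 : p ^ (L - k) • (u1 - s • u0) ∈ per h)
    (h2 : p ^ (L - 2 * k) • (u2 - (2 * s) • u1 + s ^ 2 • u0) ∈ per h) :
    p ^ (L - k') • (u1 - s' • u0) ∈ per h ∧
    p ^ (L - 2 * k') • (u2 - (2 * s') • u1 + s' ^ 2 • u0) ∈ per h := by
  obtain ⟨v, hv⟩ := hs
  have hs' : s' = s + (p : ℤ) ^ k' * v := by linarith
  subst hs'
  obtain ⟨c, rfl⟩ : ∃ c, k = k' + c := ⟨k - k', by omega⟩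
  obtain ⟨b, rfl⟩ : ∃ b, L = 2 * (k' + c) + b := ⟨L - 2 * (k' + c), by omega⟩
  rw [show 2 * (k' + c) + b - (k' + c) = k' + c + b by omega] at h1
  rw [show 2 * (k' + c) + b - 2 * (k' + c) = b by omega] at h2
  rw [show 2 * (k' + c) + b - k' = k' + 2 * c + b by omega,
    show 2 * (k' + c) + b - 2 * k' = 2 * c + b by omega]
  rw [← natCast_zsmul] at h0 h1 h2 ⊢
  rw [← natCast_zsmul]
  constructor
  · have e : (((p ^ (k' + 2 * c + b) : ℕ) : ℤ)) • (u1 - (s + (p : ℤ) ^ k' * v) • u0) =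
        ((p : ℤ) ^ c) • ((((p ^ (k' + c + b) : ℕ) : ℤ)) • (u1 - s • u0)) -
          v • ((((p ^ (2 * (k' + c) + b) : ℕ) : ℤ)) • u0) := by
      push_cast
      module
    rw [e]
    exact (per h).sub_mem ((per h).zsmul_mem h1 _) ((per h).zsmul_mem h0 _)
  · have e : (((p ^ (2 * c + b) : ℕ) : ℤ)) • (u2 - (2 * (s + (p : ℤ) ^ k' * v)) • u1 +
          (s + (p : ℤ) ^ k' * v) ^ 2 • u0) =
        ((p : ℤ) ^ (2 * c)) • ((((p ^ b : ℕ) : ℤ)) • (u2 - (2 * s) • u1 + s ^ 2 • u0)) -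
        (2 * v * (p : ℤ) ^ c) • ((((p ^ (k' + c + b) : ℕ) : ℤ)) • (u1 - s • u0)) +
          (v ^ 2) • ((((p ^ (2 * (k' + c) + b) : ℕ) : ℤ)) • u0) := by
      push_cast
      module
    rw [e]
    exact (per h).add_mem ((per h).sub_mem ((per h).zsmul_mem h2 _) ((per h).zsmul_mem h1 _))
      ((per h).zsmul_mem h0 _)

theorem pf_KM (hEX : T_EX) : V_KM := by
  intro p L G _ u0 u1 u2 hp hL
  have hpL : p ^ L • u0 = p • (p ^ (L - 1) • u0) := by
    rw [← mul_nsmul', ← pow_succ']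
    congr 2
    omega
  refine ⟨?_, ?_, ?_, ?_, ?_, ?_, ?_⟩
  · intro k k' ε s s' h hkL hk hs hK
    have h0 : p ^ L • u0 ∈ per h := by
      intro g
      rw [hpL, iter_phase h _ _ hK.1 p g, ee_pow_self p hp, one_mul]
    obtain ⟨a1, a2⟩ := change h p L k k' s s' u0 u1 u2 hkL hk hs h0 hK.2.1 hK.2.2
    exact ⟨hK.1, a1, a2⟩
  · intro k k' s s' w hkL hk hs hK
    have h0 : p ^ L • u0 ∈ per w := by
      rw [hpL]
      exact (per w).nsmul_mem hK.1 _
    obtain ⟨a1, a2⟩ := change w p L k k' s s' u0 u1 u2 hkL hk hs h0 hK.2.1 hK.2.2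
    exact ⟨hK.1, a1, a2⟩
  · intro k ε s S h hK
    refine ⟨?_, ?_, ?_⟩
    · intro g
      show ∑ i ∈ S, h i (g + p ^ (L - 1) • u0) = ee p ε * ∑ i ∈ S, h i g
      rw [Finset.mul_sum]
      exact Finset.sum_congr rfl (fun i hi => (hK i hi).1 g)
    · intro g
      exact Finset.sum_congr rfl (fun i hi => (hK i hi).2.1 g)
    · intro g
      exact Finset.sum_congr rfl (fun i hi => (hK i hi).2.2 g)
  · intro k s S w hK
    refine ⟨?_, ?_, ?_⟩
    · intro g
      exact Finset.sum_congr rfl (fun i hi => (hK i hi).1 g)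
    · intro g
      exact Finset.sum_congr rfl (fun i hi => (hK i hi).2.1 g)
    · intro g
      exact Finset.sum_congr rfl (fun i hi => (hK i hi).2.2 g)
  · intro k ε s w h hw hh
    refine ⟨?_, ?_, ?_⟩
    · intro g
      show (w (g + p ^ (L - 1) • u0) : ℂ) * h (g + p ^ (L - 1) • u0) = ee p ε * ((w g : ℂ) * h g)
      rw [hw.1, hh.1]
      ring
    · intro g
      show (w (g + p ^ (L - k) • (u1 - s • u0)) : ℂ) * h (g + p ^ (L - k) • (u1 - s • u0)) =
        (w g : ℂ) * h g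
      rw [hw.2.1, hh.2.1]
    · intro g
      show (w (g + p ^ (L - 2 * k) • (u2 - (2 * s) • u1 + s ^ 2 • u0)) : ℂ) *
          h (g + p ^ (L - 2 * k) • (u2 - (2 * s) • u1 + s ^ 2 • u0)) = (w g : ℂ) * h g
      rw [hw.2.2, hh.2.2]
  · intro k ε s h hh
    refine ⟨?_, ?_, ?_⟩
    · intro g
      show ‖h (g + p ^ (L - 1) • u0)‖ = ‖h g‖
      rw [hh.1, norm_mul, hEX.1, one_mul]
    · intro g
      show ‖h (g + p ^ (L - k) • (u1 - s • u0))‖ = ‖h g‖
      rw [hh.2.1]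
    · intro g
      show ‖h (g + p ^ (L - 2 * k) • (u2 - (2 * s) • u1 + s ^ 2 • u0))‖ = ‖h g‖
      rw [hh.2.2]
  · intro k s φ w w' hw hw'
    refine ⟨?_, ?_, ?_⟩
    · intro g
      show φ (w (g + p ^ (L - 1) • u0)) (w' (g + p ^ (L - 1) • u0)) = φ (w g) (w' g)
      rw [hw.1, hw'.1]
    · intro g
      show φ (w (g + p ^ (L - k) • (u1 - s • u0))) (w' (g + p ^ (L - k) • (u1 - s • u0))) =
        φ (w g) (w' g)
      rw [hw.2.1, hw'.2.1]
    · intro g
      show φ (w (g + p ^ (L - 2 * k) • (u2 - (2 * s) • u1 + s ^ 2 • u0)))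
          (w' (g + p ^ (L - 2 * k) • (u2 - (2 * s) • u1 + s ^ 2 • u0))) = φ (w g) (w' g)
      rw [hw.2.2, hw'.2.2]

end Pool.Agent.H91.VQ
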